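import Pool.Agent.Helper97.CG.Stmts

set_option autoImplicit false

/-!
# The commutant of the isometry groups (row CEN)
-/

namespace Pool.Agent.Helper97.CG

open MvPolynomial Matrix Pool.Agent.Helper14.RG

section

variable {k : Type*} [Field k] {n : Type} [Fintype n] [DecidableEq n]

lemma cen_det_one_add (u v : n → k) : (1 + vecMulVec u v).det = 1 + v ⬝ᵥ u := by
  rw [Matrix.vecMulVec_eq Unit]
  exact Matrix.det_one_add_replicateCol_mul_replicateRow u v

lemma cen_scalar {c : Matrix n n k} (h1 : ∀ a b, a ≠ b → c a b = 0) (h2 : ∀ a b, c a a = c b b) :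
    ∃ a : k, c = a • (1 : Matrix n n k) := by
  rcases isEmpty_or_nonempty n with h | ⟨⟨i⟩⟩
  · exact ⟨0, Subsingleton.elim _ _⟩
  · refine ⟨c i i, ?_⟩
    ext a b
    rw [Matrix.smul_apply, smul_eq_mul, Matrix.one_apply]
    split_ifs with hab
    · rw [← hab, mul_one]; exact h2 a i
    · rw [mul_zero]; exact h1 a b hab

/-- a matrix for which every vector is an eigenvector is scalar -/
lemma cen_scalar_of_eigen {c : Matrix n n k} (h : ∀ v : n → k, ∃ l : k, c *ᵥ v = l • v) :
    ∃ a : k, c = a • (1 : Matrix n n k) := by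
  have h1 : ∀ a b, a ≠ b → c a b = 0 := by
    intro a b hab
    obtain ⟨l, hl⟩ := h (Pi.single b 1)
    have h2 := congrFun hl a
    rw [Matrix.mulVec_single_one, Pi.smul_apply, Pi.single_eq_of_ne hab, smul_zero] at h2
    exact h2
  refine cen_scalar h1 ?_
  intro a b
  rcases eq_or_ne a b with rfl | hab
  · rfl
  obtain ⟨l, hl⟩ := h (Pi.single a 1 + Pi.single b 1)
  have ha := congrFun hl a
  have hb := congrFun hl b
  rw [Matrix.mulVec_add, Matrix.mulVec_single_one, Matrix.mulVec_single_one] at ha hb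
  simp only [Pi.add_apply, Pi.smul_apply, Matrix.col_apply, Pi.single_eq_same,
    Pi.single_eq_of_ne hab, Pi.single_eq_of_ne hab.symm, h1 a b hab, h1 b a hab.symm, add_zero,
    zero_add, smul_eq_mul, mul_one] at ha hb
  rw [ha, hb]

end

section Alt

variable {k : Type*} [Field k] [CharZero k] {n : Type} [Fintype n] [DecidableEq n]

lemma cen_alt {J : Matrix n n k} (hJ : IsForm (-1) J) {c : Matrix n n k}
    (hc : ∀ x : IsoG J, c * isoHom J x = isoHom J x * c) : ∃ a : k, c = a • (1 : Matrix n n k) := by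
  have hJt : Jᵀ = -J := by rw [hJ.symm, neg_smul, one_smul]
  have hvv : ∀ v : n → k, v ⬝ᵥ (J *ᵥ v) = 0 := by
    intro v
    have h1 : v ⬝ᵥ (J *ᵥ v) = -(v ⬝ᵥ (J *ᵥ v)) := by
      conv_lhs => rw [Matrix.dotProduct_mulVec, ← Matrix.mulVec_transpose, hJt, Matrix.neg_mulVec,
        neg_dotProduct, dotProduct_comm]
    have h2 : (2 : k) * (v ⬝ᵥ (J *ᵥ v)) = 0 := by linear_combination h1
    exact (mul_eq_zero.mp h2).resolve_left two_ne_zero
  apply cen_scalar_of_eigen
  intro v
  rcases eq_or_ne v 0 with rfl | hv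
  · exact ⟨0, by rw [Matrix.mulVec_zero, smul_zero]⟩
  have hdet : (1 + vecMulVec v (J *ᵥ v)).det = 1 := by
    rw [cen_det_one_add, dotProduct_comm, hvv, add_zero]
  have hiso : (1 + vecMulVec v (J *ᵥ v))ᵀ * J * (1 + vecMulVec v (J *ᵥ v)) = J := by
    have e1 : (1 + vecMulVec v (J *ᵥ v))ᵀ = 1 + vecMulVec (J *ᵥ v) v := by
      rw [transpose_add, transpose_one, Matrix.transpose_vecMulVec]
    have e2 : vecMulVec (J *ᵥ v) v * J = -vecMulVec (J *ᵥ v) (J *ᵥ v) := by
      rw [Matrix.vecMulVec_mul, ← Matrix.mulVec_transpose, hJt, Matrix.neg_mulVec]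
      ext i j
      simp [vecMulVec_apply]
    have e3 : J * vecMulVec v (J *ᵥ v) = vecMulVec (J *ᵥ v) (J *ᵥ v) := Matrix.mul_vecMulVec _ _ _
    have e4 : vecMulVec (J *ᵥ v) (J *ᵥ v) * vecMulVec v (J *ᵥ v) = 0 := by
      rw [Matrix.vecMulVec_mul_vecMulVec, dotProduct_comm, hvv]
      simp
    rw [e1, Matrix.add_mul, Matrix.one_mul, e2, Matrix.mul_add, Matrix.mul_one, Matrix.add_mul, e3,
      Matrix.neg_mul, e4]
    abel
  let x : IsoG J := ⟨⟨1 + vecMulVec v (J *ᵥ v), hdet⟩, hiso⟩
  have hx : c * (1 + vecMulVec v (J *ᵥ v)) = (1 + vecMulVec v (J *ᵥ v)) * c := hc x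
  rw [Matrix.mul_add, Matrix.add_mul, Matrix.mul_one, Matrix.one_mul, add_right_inj,
    Matrix.mul_vecMulVec, Matrix.vecMulVec_mul] at hx
  have hJv : J *ᵥ v ≠ 0 := by
    intro h0
    apply hv
    have hu : IsUnit J.det := isUnit_iff_ne_zero.mpr hJ.det_ne
    calc v = (J⁻¹ * J) *ᵥ v := by rw [Matrix.nonsing_inv_mul _ hu, Matrix.one_mulVec]
      _ = 0 := by rw [← Matrix.mulVec_mulVec, h0, Matrix.mulVec_zero]
  obtain ⟨j, hj⟩ := Function.ne_iff.mp hJv
  refine ⟨((J *ᵥ v) ᵥ* c) j / (J *ᵥ v) j, ?_⟩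
  ext i
  have h1 := congrFun (congrFun hx i) j
  rw [vecMulVec_apply, vecMulVec_apply] at h1
  rw [Pi.smul_apply, smul_eq_mul, div_mul_eq_mul_div, eq_div_iff hj, h1]
  ring

end Alt

section Sym

variable {k : Type*} [Field k] [CharZero k] {n : Type} [Fintype n] [DecidableEq n]

/-- the reflection of the standard form -/
noncomputable def cenR (w : n → k) : Matrix n n k := 1 + vecMulVec w ((-2 / (w ⬝ᵥ w)) • w)

lemma cenR_det {w : n → k} (hw : w ⬝ᵥ w ≠ 0) : (cenR w).det = -1 := by
  rw [cenR, cen_det_one_add, smul_dotProduct, smul_eq_mul, div_mul_cancel₀ _ hw]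
  norm_num

lemma cenR_transpose (w : n → k) : (cenR w)ᵀ = cenR w := by
  ext i j
  rw [cenR, transpose_apply, Matrix.add_apply, Matrix.add_apply, vecMulVec_apply, vecMulVec_apply,
    Pi.smul_apply, Pi.smul_apply, smul_eq_mul, smul_eq_mul]
  have : (1 : Matrix n n k) j i = (1 : Matrix n n k) i j := by
    rw [← Matrix.transpose_apply (1 : Matrix n n k) i j, transpose_one]
  rw [this]
  ring

lemma cenR_sq {w : n → k} (hw : w ⬝ᵥ w ≠ 0) : cenR w * cenR w = 1 := by
  have e : vecMulVec w ((-2 / (w ⬝ᵥ w)) • w) * vecMulVec w ((-2 / (w ⬝ᵥ w)) • w)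
      = -(2 • vecMulVec w ((-2 / (w ⬝ᵥ w)) • w)) := by
    rw [Matrix.vecMulVec_mul_vecMulVec, smul_dotProduct, smul_eq_mul, div_mul_cancel₀ _ hw]
    ext i j
    rw [vecMulVec_apply, Matrix.neg_apply, two_nsmul, Matrix.add_apply, vecMulVec_apply,
      Pi.smul_apply, Pi.smul_apply, smul_eq_mul, smul_eq_mul]
    ring
  rw [cenR, Matrix.add_mul, Matrix.one_mul, Matrix.mul_add, Matrix.mul_one, e, two_nsmul]
  abel

lemma cen_sym {J : Matrix n n k} {c u : Matrix n n k} (hu : uᵀ * J * u = 1)
    (hn : 3 ≤ Fintype.card n)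
    (hc : ∀ x : IsoG J, c * isoHom J x = isoHom J x * c) : ∃ a : k, c = a • (1 : Matrix n n k) := by
  have hvu : (uᵀ * J) * u = 1 := hu
  have huv : u * (uᵀ * J) = 1 := mul_eq_one_comm.mp hvu
  obtain ⟨v, hv⟩ : ∃ v, v = uᵀ * J := ⟨_, rfl⟩
  rw [← hv] at hvu huv
  have hvv : vᵀ * v = J := by
    calc vᵀ * v = vᵀ * (v * u) * v := by rw [hvu, Matrix.mul_one]
      _ = vᵀ * (uᵀ * J * u) * v := by rw [hv]
      _ = (u * v)ᵀ * J * (u * v) := by rw [transpose_mul]; simp only [Matrix.mul_assoc]
      _ = J := by rw [huv, transpose_one, Matrix.one_mul, Matrix.mul_one]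
  have key : ∀ w z : n → k, w ⬝ᵥ w ≠ 0 → z ⬝ᵥ z ≠ 0 →
      (v * c * u) * (cenR w * cenR z) = (cenR w * cenR z) * (v * c * u) := by
    intro w z hw hz
    have hMM : (cenR w * cenR z)ᵀ * (cenR w * cenR z) = 1 := by
      rw [transpose_mul, cenR_transpose, cenR_transpose]
      calc cenR z * cenR w * (cenR w * cenR z) = cenR z * (cenR w * cenR w) * cenR z := by
            simp only [Matrix.mul_assoc]
        _ = 1 := by rw [cenR_sq hw, Matrix.mul_one, cenR_sq hz]
    have hdet : (u * (cenR w * cenR z) * v).det = 1 := by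
      have h1 : u.det * v.det = 1 := by rw [← Matrix.det_mul, huv, Matrix.det_one]
      rw [Matrix.det_mul, Matrix.det_mul, Matrix.det_mul, cenR_det hw, cenR_det hz]
      linear_combination h1
    have hiso : (u * (cenR w * cenR z) * v)ᵀ * J * (u * (cenR w * cenR z) * v) = J := by
      rw [transpose_mul, transpose_mul]
      calc vᵀ * ((cenR w * cenR z)ᵀ * uᵀ) * J * (u * (cenR w * cenR z) * v)
          = vᵀ * ((cenR w * cenR z)ᵀ * (uᵀ * J * u) * (cenR w * cenR z)) * v := by
            simp only [Matrix.mul_assoc]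
        _ = J := by rw [hu, Matrix.mul_one, hMM, Matrix.mul_one, hvv]
    have h1 : c * (u * (cenR w * cenR z) * v) = (u * (cenR w * cenR z) * v) * c :=
      hc ⟨⟨u * (cenR w * cenR z) * v, hdet⟩, hiso⟩
    calc (v * c * u) * (cenR w * cenR z)
        = v * (c * (u * (cenR w * cenR z) * v)) * u := by
          simp only [Matrix.mul_assoc]
          rw [hvu, Matrix.mul_one]
      _ = (v * u) * (cenR w * cenR z) * (v * c * u) := by rw [h1]; simp only [Matrix.mul_assoc]
      _ = (cenR w * cenR z) * (v * c * u) := by rw [hvu, Matrix.one_mul]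
  set c' := v * c * u with hc'
  -- a third index
  have third : ∀ a b : n, ∃ j, j ≠ a ∧ j ≠ b := by
    intro a b
    by_contra hcon
    push Not at hcon
    have h1 : (Finset.univ : Finset n) ⊆ {a, b} := by
      intro j _
      rw [Finset.mem_insert, Finset.mem_singleton]
      by_cases hj : j = a
      · exact Or.inl hj
      · exact Or.inr (hcon j hj)
    have h2 := Finset.card_le_card h1
    rw [Finset.card_univ] at h2
    have h3 := Finset.card_le_two (a := a) (b := b)
    omega
  have hsingle : ∀ a : n, (Pi.single a 1 : n → k) ⬝ᵥ Pi.single a 1 = 1 := by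
    intro a
    rw [single_dotProduct, Pi.single_eq_same, mul_one]
  have hdiag : ∀ a : n, cenR (Pi.single a 1 : n → k)
      = Matrix.diagonal (fun i => if i = a then (-1 : k) else 1) := by
    intro a
    ext i j
    rw [cenR, hsingle, div_one, Matrix.add_apply, vecMulVec_apply, Pi.smul_apply, smul_eq_mul,
      Matrix.one_apply, Matrix.diagonal_apply, Pi.single_apply, Pi.single_apply]
    by_cases hij : i = j
    · subst hij
      by_cases hia : i = a
      · simp [hia]; norm_num
      · simp [hia]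
    · by_cases hia : i = a
      · subst hia
        have : j ≠ i := fun h => hij h.symm
        simp [hij, this]
      · simp [hij, hia]
  have h1 : ∀ a b, a ≠ b → c' a b = 0 := by
    intro a b hab
    obtain ⟨j, hja, hjb⟩ := third a b
    have h2 := key (Pi.single a 1) (Pi.single j 1) (by rw [hsingle]; exact one_ne_zero)
      (by rw [hsingle]; exact one_ne_zero)
    rw [hdiag, hdiag, Matrix.diagonal_mul_diagonal] at h2
    have h3 := congrFun (congrFun h2 a) b
    rw [Matrix.mul_diagonal, Matrix.diagonal_mul, if_neg hab.symm, if_neg hjb.symm, if_pos rfl,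
      if_neg hja.symm] at h3
    have h4 : (2 : k) * c' a b = 0 := by linear_combination h3
    exact (mul_eq_zero.mp h4).resolve_left two_ne_zero
  have h2 : ∀ a b, c' a a = c' b b := by
    intro a b
    rcases eq_or_ne a b with rfl | hab
    · rfl
    obtain ⟨j, hja, hjb⟩ := third a b
    have hw : (Pi.single a 1 + Pi.single b 1 : n → k) ⬝ᵥ (Pi.single a 1 + Pi.single b 1) = 2 := by
      rw [add_dotProduct, dotProduct_add, dotProduct_add, hsingle, hsingle, single_dotProduct,
        single_dotProduct, Pi.single_eq_of_ne hab, Pi.single_eq_of_ne hab.symm]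
      norm_num
    have h3 := key (Pi.single a 1 + Pi.single b 1) (Pi.single j 1)
      (by rw [hw]; exact two_ne_zero) (by rw [hsingle]; exact one_ne_zero)
    have hcd : c' = Matrix.diagonal (fun i => c' i i) := by
      ext i j
      rw [Matrix.diagonal_apply]
      split_ifs with hij
      · rw [hij]
      · exact h1 i j hij
    have h4 := congrFun (congrFun h3 a) b
    rw [hcd, Matrix.diagonal_mul, Matrix.mul_diagonal, hdiag, Matrix.mul_diagonal,
      if_neg hjb.symm, mul_one] at h4
    have h5 : cenR (Pi.single a 1 + Pi.single b 1 : n → k) a b = -1 := by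
      rw [cenR, hw, Matrix.add_apply, vecMulVec_apply, Pi.smul_apply, smul_eq_mul,
        Matrix.one_apply, if_neg hab]
      simp [Pi.single_eq_of_ne hab, Pi.single_eq_of_ne hab.symm]
    rw [h5] at h4
    linear_combination -h4
  obtain ⟨a, ha⟩ := cen_scalar h1 h2
  refine ⟨a, ?_⟩
  calc c = (u * v) * c * (u * v) := by rw [huv, Matrix.one_mul, Matrix.mul_one]
    _ = u * c' * v := by rw [hc']; simp only [Matrix.mul_assoc]
    _ = a • (1 : Matrix n n k) := by
      rw [ha, Matrix.mul_smul, Matrix.mul_one, Matrix.smul_mul, huv]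

end Sym

universe u

theorem st_CEN {k : Type u} [Field k] [IsAlgClosed k] [CharZero k] (hEQV : ST_EQV k) :
    ST_CEN k := by
  intro n _ _ ε J hJ hn c hc
  rcases hJ.eps with h | h
  · subst h
    have h1 : IsForm (1 : k) (1 : Matrix n n k) :=
      ⟨Or.inl rfl, by rw [transpose_one, one_smul], by rw [Matrix.det_one]; exact one_ne_zero⟩
    obtain ⟨u, hu⟩ := hEQV n n 1 J 1 hJ h1 rfl
    exact cen_sym hu (hn rfl) hc
  · subst h
    exact cen_alt hJ hc

end Pool.Agent.Helper97.CG
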